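import Pool.Agent.Lib.MP_777af9_an.Main

/-!
# MP_777af9_an: dichotomy for the strongly admissible Lorentz spaces

Either `L log L` is the largest strongly admissible Lorentz space (which is the assertion of the
question), or for every strongly admissible Lorentz space the quotient `φ(t) / (t log (e/t))`
tends to infinity as `t` tends to zero.
-/

set_option autoImplicit false

namespace Pool.Agent.Results.MP_777af9_an.Dichotomy

open Pool.Agent.MP777 Filter Topology

theorem result :
    IsLargest phi1 ∨
      ∀ φ : ℝ → ℝ, LorFun φ → Adm φ → Tendsto (fun t => φ t / phi1 t) (𝓝[>] 0) atTop :=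
  final.2.2.2.1

end Pool.Agent.Results.MP_777af9_an.Dichotomy
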