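import Pool.Agent.Lib.MP_777af9_an.Main

/-!
# MP_777af9_an: a largest strongly admissible Lorentz space exists

If at least one Lorentz space is strongly admissible for the Carleson operator, then there is a
largest one: a strongly admissible Lorentz space which contains all strongly admissible ones.
-/

set_option autoImplicit false

namespace Pool.Agent.Results.MP_777af9_an.LargestExists

open Pool.Agent.MP777

theorem result (h : ∃ φ : ℝ → ℝ, LorFun φ ∧ Adm φ) : ∃ φ : ℝ → ℝ, IsLargest φ :=
  final.1 h

end Pool.Agent.Results.MP_777af9_an.LargestExists
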