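import Pool.Agent.Lib.MP_777af9_an.Main

/-!
# MP_777af9_an: the assertion of the question is equivalent to one inequality off the support

`L log L` is the largest strongly admissible Lorentz space if and only if there is a constant `K`
with `∫_{h = 0} C h ≤ K ‖h‖₁ log (‖h‖_∞ / ‖h‖₁)` for all smooth `h ≥ 0`, `h ≠ 0`.
-/

set_option autoImplicit false

namespace Pool.Agent.Results.MP_777af9_an.OffSupport

open Pool.Agent.MP777 MeasureTheory

theorem result :
    IsLargest phi1 ↔ ∃ K : ℝ, 0 < K ∧ ∀ (h : ℝ → ℝ) (M : ℝ), SmR h → (∀ x, 0 ≤ h x) →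
      0 < mass h → (∀ x, h x ≤ M) →
      ∫⁻ x in zer h, Cf (cx h) x ≤ ENNReal.ofReal (K * mass h * Real.log (M / mass h)) :=
  final.2.2.2.2

end Pool.Agent.Results.MP_777af9_an.OffSupport
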