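import Pool.Agent.Lib.MP_777af9_an.Walsh.Int
import Pool.Agent.Lib.MP_777af9_an.Walsh.Dir
import Pool.Agent.Lib.MP_777af9_an.Walsh.Part
import Pool.Agent.Lib.MP_777af9_an.Walsh.Half
import Pool.Agent.Lib.MP_777af9_an.Walsh.Fac
import Pool.Agent.Lib.MP_777af9_an.Walsh.KE
import Pool.Agent.Lib.MP_777af9_an.Walsh.Gain
import Pool.Agent.Lib.MP_777af9_an.Walsh.Var
import Pool.Agent.Lib.MP_777af9_an.Walsh.Khin
import Pool.Agent.Lib.MP_777af9_an.Walsh.Low
import Pool.Agent.Lib.MP_777af9_an.Walsh.Meas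
import Pool.Agent.Lib.MP_777af9_an.Walsh.Main
import Pool.Agent.Lib.MP_777af9_an.Walsh.Fin

/-!
# MP_777af9_an: the Walsh analogue of the question is false

If the maximal operator of the Walsh-Fourier partial sums (Paley order) maps the Lorentz space of
`φ` into `L¹`, then `φ(t) ≥ c t (log (e/t))^{3/2}`. In particular it does not map `L log L` into `L¹`.
-/

set_option autoImplicit false

namespace Pool.Agent.Results.MP_777af9_an.WalshFails

open Pool.Agent.MP777 Pool.Agent.MP777.Walsh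

theorem result :
    (∀ φ : ℝ → ℝ, LorFun φ → AdmW φ → ∃ c : ℝ, 0 < c ∧ ∀ t : ℝ, 0 < t → t ≤ 1 →
      c * (t * Real.log (Real.exp 1 / t) ^ (3 / 2 : ℝ)) ≤ φ t) ∧
    ¬ AdmW phi1 := by
  have hKE : S_KE := pKE (pFac pHalf)
  have hPart : S_Part := pPart pInt pDir
  have hLow : S_Low := pLow pHalf pVar
  exact pFin (pGain pHalf) pKhin (pMeas pInt pHalf) (pMain pInt hPart hKE hLow)

end Pool.Agent.Results.MP_777af9_an.WalshFails
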